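import Pool.Agent.W452.Psi.SL

/-!
# A lower bound for the sum of the element orders of `PSL(2,p)`
-/

set_option autoImplicit false

open scoped MatrixGroups
open Matrix

namespace Pool.Agent.W452.Psi

variable {p : ℕ} [Fact p.Prime]

/-- The sum of a function of the order over a finite cyclic group. -/
lemma sum_cyclic {C : Type*} [Group C] [Fintype C] [IsCyclic C] (f : ℕ → ℕ) :
    ∑ c : C, f (orderOf c) = ∑ d ∈ (Fintype.card C).divisors, d.totient * f d := by
  classical
  rw [← Finset.sum_fiberwise_of_maps_to (s := (Finset.univ : Finset C))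
    (t := (Fintype.card C).divisors) (g := fun c => orderOf c)]
  · apply Finset.sum_congr rfl
    intro d hd
    have hd' := Nat.dvd_of_mem_divisors hd
    rw [← IsCyclic.card_orderOf_eq_totient (α := C) hd',
      Finset.card_filter, Finset.sum_mul, Finset.sum_filter]
    apply Finset.sum_congr rfl
    intro c _
    by_cases h : orderOf c = d
    · rw [if_pos h, if_pos h, h, one_mul]
    · rw [if_neg h, if_neg h, zero_mul]
  · intro c _
    rw [Nat.mem_divisors]
    exact ⟨orderOf_dvd_card, Fintype.card_ne_zero⟩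

/-- The matrix with first row starting by `a`, with lower left entry `c` and eigenvalues
`l, l⁻¹`. -/
def mat (l : (ZMod p)ˣ) (a : ZMod p) (c : (ZMod p)ˣ) : SL(2, ZMod p) :=
  mk2 a ((a * ((l : ZMod p) + (l : ZMod p)⁻¹ - a) - 1) * (c : ZMod p)⁻¹) c
    ((l : ZMod p) + (l : ZMod p)⁻¹ - a) (by
      rw [mul_assoc, inv_mul_cancel₀ c.ne_zero]; ring)

lemma mat_eigen (l : (ZMod p)ˣ) (a : ZMod p) (c : (ZMod p)ˣ) :
    orderOf (l ^ 2) ∣ orderOf (pr (mat l a c)) := by
  refine dvd_order _ l ![(l : ZMod p) - ((l : ZMod p) + (l : ZMod p)⁻¹ - a), c] ?_ ?_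
  · intro h
    exact c.ne_zero (congrFun h 1)
  · ext i
    have hl : (l : ZMod p) * (l : ZMod p)⁻¹ = 1 := mul_inv_cancel₀ l.ne_zero
    have hc : (c : ZMod p)⁻¹ * c = 1 := inv_mul_cancel₀ c.ne_zero
    fin_cases i
    · change (mat l a c).1 0 0 * _ + ((mat l a c).1 0 1 * _ + 0) = (l : ZMod p) * _
      change a * ((l : ZMod p) - ((l : ZMod p) + (l : ZMod p)⁻¹ - a)) +
        ((a * ((l : ZMod p) + (l : ZMod p)⁻¹ - a) - 1) * (c : ZMod p)⁻¹ * (c : ZMod p) + 0) =
        (l : ZMod p) * ((l : ZMod p) - ((l : ZMod p) + (l : ZMod p)⁻¹ - a))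
      linear_combination (a * ((l : ZMod p) + (l : ZMod p)⁻¹ - a) - 1) * hc + hl
    · change (c : ZMod p) * ((l : ZMod p) - ((l : ZMod p) + (l : ZMod p)⁻¹ - a)) +
        (((l : ZMod p) + (l : ZMod p)⁻¹ - a) * (c : ZMod p) + 0) = (l : ZMod p) * (c : ZMod p)
      ring

/-- Equal sums `l + l⁻¹` mean equal or inverse. -/
lemma unit_pair {l m : (ZMod p)ˣ}
    (h : (l : ZMod p) + (l : ZMod p)⁻¹ = (m : ZMod p) + (m : ZMod p)⁻¹) : l = m ∨ l = m⁻¹ := by
  have hl : (l : ZMod p) * (l : ZMod p)⁻¹ = 1 := mul_inv_cancel₀ l.ne_zero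
  have hm : (m : ZMod p) * (m : ZMod p)⁻¹ = 1 := mul_inv_cancel₀ m.ne_zero
  have h1 : ((l : ZMod p) - m) * ((l : ZMod p) - (m : ZMod p)⁻¹) = 0 := by
    linear_combination (l : ZMod p) * h - hl + hm
  rcases mul_eq_zero.mp h1 with h2 | h2
  · left; apply Units.ext; linear_combination h2
  · right; apply Units.ext; rw [Units.val_inv_eq_inv_val]; linear_combination h2

/-- The index type. -/
abbrev Idx (p : ℕ) := (ZMod p)ˣ × ZMod p × (ZMod p)ˣ

lemma fib {i j : Idx p} (h : pr (mat i.1 i.2.1 i.2.2) = pr (mat j.1 j.2.1 j.2.2)) :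
    i = j ∨ i = (j.1⁻¹, j.2.1, j.2.2) ∨ i = (-j.1, -j.2.1, -j.2.2) ∨
      i = (-j.1⁻¹, -j.2.1, -j.2.2) := by
  obtain ⟨l, a, c⟩ := i
  obtain ⟨m, b, e⟩ := j
  simp only at h ⊢
  rcases pr_eq h with h1 | h1
  · have h00 := congrArg (fun g : SL(2, ZMod p) => g.1 0 0) h1
    have h10 := congrArg (fun g : SL(2, ZMod p) => g.1 1 0) h1
    have h11 := congrArg (fun g : SL(2, ZMod p) => g.1 1 1) h1
    simp only [mat, mk2_00, mk2_10, mk2_11] at h00 h10 h11
    have hc := Units.ext h10
    have h2 : (l : ZMod p) + (l : ZMod p)⁻¹ = (m : ZMod p) + (m : ZMod p)⁻¹ := by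
      linear_combination h11 + h00
    rcases unit_pair h2 with h3 | h3
    · left; rw [h3, h00, hc]
    · right; left; rw [h3, h00, hc]
  · have h00 := congrArg (fun g : SL(2, ZMod p) => g.1 0 0) h1
    have h10 := congrArg (fun g : SL(2, ZMod p) => g.1 1 0) h1
    have h11 := congrArg (fun g : SL(2, ZMod p) => g.1 1 1) h1
    simp only [Matrix.SpecialLinearGroup.coe_neg, Matrix.neg_apply] at h00 h10 h11
    simp only [mat, mk2_00, mk2_10, mk2_11] at h00 h10 h11
    have hc : c = -e := Units.ext (by rw [Units.val_neg]; exact h10)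
    have h2 : (l : ZMod p) + (l : ZMod p)⁻¹ = ((-m : (ZMod p)ˣ) : ZMod p) +
        ((-m : (ZMod p)ˣ) : ZMod p)⁻¹ := by
      rw [Units.val_neg, inv_neg]
      linear_combination h11 + h00
    rcases unit_pair h2 with h3 | h3
    · right; right; left; rw [h3, h00, hc]
    · right; right; right
      rw [h3, h00, hc]
      congr 1

/-- The sum over a map with fibres of at most four elements. -/
lemma sum_le_four {I X : Type*} [Fintype I] [Fintype X] (g : I → X)
    (w : X → ℕ) (h : ∀ j : I, ∃ s : Finset I, s.card ≤ 4 ∧ ∀ i, g i = g j → i ∈ s) :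
    ∑ i, w (g i) ≤ 4 * ∑ x, w x := by
  classical
  rw [← Finset.sum_fiberwise (s := (Finset.univ : Finset I)) (g := g), Finset.mul_sum]
  apply Finset.sum_le_sum
  intro x _
  have h1 : ∑ i ∈ (Finset.univ : Finset I) with g i = x, w (g i) =
      ((Finset.univ : Finset I).filter (fun i => g i = x)).card * w x := by
    rw [Finset.card_eq_sum_ones, Finset.sum_mul]
    apply Finset.sum_congr rfl
    intro i hi
    rw [(Finset.mem_filter.mp hi).2, one_mul]
  rw [h1]
  apply Nat.mul_le_mul_right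
  by_cases hx : ∃ j, g j = x
  · obtain ⟨j, rfl⟩ := hx
    obtain ⟨s, hs, hs'⟩ := h j
    refine le_trans (Finset.card_le_card ?_) hs
    intro i hi
    exact hs' i (Finset.mem_filter.mp hi).2
  · push Not at hx
    have : (Finset.univ : Finset I).filter (fun i => g i = x) = ∅ := by
      apply Finset.filter_eq_empty_iff.mpr
      intro i _ 
      exact hx i
    rw [this]; simp

/-- The sum of the element orders. -/
noncomputable def psi (X : Type) [Group X] : ℕ := ∑ᶠ x : X, orderOf x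

lemma psi_eq (X : Type) [Group X] [Fintype X] : psi X = ∑ x : X, orderOf x := by
  rw [psi, finsum_eq_sum_of_fintype]

/-- The lower bound. -/
theorem psi_PSL : p * (p - 1) * (∑ l : (ZMod p)ˣ, orderOf (l ^ 2)) ≤
    4 * psi (PS p) := by
  classical
  have : Fintype (PS p) := Fintype.ofFinite _
  rw [psi_eq]
  refine le_trans ?_ (sum_le_four (I := Idx p) (fun i => pr (mat i.1 i.2.1 i.2.2))
    (fun x => orderOf x) ?_)
  · have h1 : ∑ i : Idx p, orderOf (i.1 ^ 2) = p * (p - 1) * (∑ l : (ZMod p)ˣ, orderOf (l ^ 2)) := by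
      rw [Fintype.sum_prod_type]
      simp only [Finset.sum_const, smul_eq_mul]
      rw [← Finset.mul_sum, Finset.card_univ, Fintype.card_prod, ZMod.card, ZMod.card_units]
    rw [← h1]
    apply Finset.sum_le_sum
    intro i _
    exact Nat.le_of_dvd (orderOf_pos _) (mat_eigen _ _ _)
  · intro j
    refine ⟨{j, (j.1⁻¹, j.2.1, j.2.2), (-j.1, -j.2.1, -j.2.2), (-j.1⁻¹, -j.2.1, -j.2.2)}, ?_, ?_⟩
    · exact Finset.card_le_four
    · intro i hi
      rcases fib hi with h | h | h | h <;> simp [h]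

lemma sum_sq : ∑ l : (ZMod p)ˣ, orderOf (l ^ 2) =
    ∑ d ∈ (p - 1).divisors, d.totient * (d / Nat.gcd d 2) := by
  have h2 := sum_cyclic (C := (ZMod p)ˣ) (fun d => d / Nat.gcd d 2)
  rw [ZMod.card_units] at h2
  rw [← h2]
  apply Finset.sum_congr rfl
  intro l _
  rw [orderOf_pow]

/-- The lower bound, arithmetic form. -/
theorem psi_PSL' : p * (p - 1) * (∑ d ∈ (p - 1).divisors, d.totient * (d / Nat.gcd d 2)) ≤
    4 * psi (PS p) := by
  rw [← sum_sq]
  exact psi_PSL

end Pool.Agent.W452.Psi
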