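import Mathlib

/-!
# Element orders in `PSL(2,p)`: cardinality and a lower bound for the sum of the element orders
-/

set_option autoImplicit false

open scoped MatrixGroups
open Matrix

namespace Pool.Agent.W452.Psi

variable {p : ℕ} [Fact p.Prime]

/-- A matrix of `SL(2, ZMod p)` from its entries. -/
def mk2 (a b c d : ZMod p) (h : a * d - b * c = 1) : SL(2, ZMod p) :=
  ⟨!![a, b; c, d], by rw [Matrix.det_fin_two_of]; exact h⟩

lemma mk2_00 (a b c d : ZMod p) (h : a * d - b * c = 1) : (mk2 a b c d h).1 0 0 = a := rfl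
lemma mk2_01 (a b c d : ZMod p) (h : a * d - b * c = 1) : (mk2 a b c d h).1 0 1 = b := rfl
lemma mk2_10 (a b c d : ZMod p) (h : a * d - b * c = 1) : (mk2 a b c d h).1 1 0 = c := rfl
lemma mk2_11 (a b c d : ZMod p) (h : a * d - b * c = 1) : (mk2 a b c d h).1 1 1 = d := rfl

lemma det_eq (g : SL(2, ZMod p)) : g.1 0 0 * g.1 1 1 - g.1 0 1 * g.1 1 0 = 1 := by
  have := g.2
  rwa [Matrix.det_fin_two] at this

lemma ext4 {g h : SL(2, ZMod p)} (h0 : g.1 0 0 = h.1 0 0) (h1 : g.1 0 1 = h.1 0 1)
    (h2 : g.1 1 0 = h.1 1 0) (h3 : g.1 1 1 = h.1 1 1) : g = h := by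
  apply Subtype.ext
  ext i j
  fin_cases i <;> fin_cases j
  · exact h0
  · exact h1
  · exact h2
  · exact h3

lemma card_SL : Nat.card SL(2, ZMod p) = (p - 1) * p ^ 2 + (p - 1) * p := by
  let f : ((ZMod p)ˣ × ZMod p × ZMod p) ⊕ ((ZMod p)ˣ × ZMod p) → SL(2, ZMod p) := fun u =>
    match u with
    | Sum.inl (a, b, c) => mk2 (a : ZMod p) b c ((a : ZMod p)⁻¹ * (1 + b * c)) (by
        rw [← mul_assoc, mul_inv_cancel₀ a.ne_zero]; ring)
    | Sum.inr (b, d) => mk2 0 (b : ZMod p) (-(b : ZMod p)⁻¹) d (by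
        rw [zero_mul, mul_neg, mul_inv_cancel₀ b.ne_zero]; ring)
  have hf : Function.Bijective f := by
    constructor
    · rintro (⟨a, b, c⟩ | ⟨b, d⟩) (⟨a', b', c'⟩ | ⟨b', d'⟩) h
      · have h0 := congrArg (fun g : SL(2, ZMod p) => g.1 0 0) h
        have h1 := congrArg (fun g : SL(2, ZMod p) => g.1 0 1) h
        have h2 := congrArg (fun g : SL(2, ZMod p) => g.1 1 0) h
        simp only [f, mk2_00, mk2_01, mk2_10] at h0 h1 h2
        rw [Units.ext h0, h1, h2]
      · have h0 := congrArg (fun g : SL(2, ZMod p) => g.1 0 0) h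
        simp only [f, mk2_00] at h0
        exact absurd h0 a.ne_zero
      · have h0 := congrArg (fun g : SL(2, ZMod p) => g.1 0 0) h
        simp only [f, mk2_00] at h0
        exact absurd h0.symm a'.ne_zero
      · have h0 := congrArg (fun g : SL(2, ZMod p) => g.1 0 1) h
        have h1 := congrArg (fun g : SL(2, ZMod p) => g.1 1 1) h
        simp only [f, mk2_01, mk2_11] at h0 h1
        rw [Units.ext h0, h1]
    · intro g
      have hdet := det_eq g
      by_cases ha : g.1 0 0 = 0
      · have hb : g.1 0 1 ≠ 0 := by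
          intro hb; rw [ha, hb] at hdet; simp at hdet
        refine ⟨Sum.inr (Units.mk0 _ hb, g.1 1 1), ?_⟩
        apply ext4 <;> simp only [f, mk2_00, mk2_01, mk2_10, mk2_11, Units.val_mk0]
        · exact ha.symm
        · rw [ha] at hdet
          field_simp
          linear_combination hdet
      · refine ⟨Sum.inl (Units.mk0 _ ha, g.1 0 1, g.1 1 0), ?_⟩
        apply ext4 <;> simp only [f, mk2_00, mk2_01, mk2_10, mk2_11, Units.val_mk0]
        field_simp
        linear_combination (-1 : ZMod p) * hdet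
  rw [← Nat.card_congr (Equiv.ofBijective f hf), Nat.card_sum, Nat.card_prod, Nat.card_prod,
    Nat.card_prod, Nat.card_zmod, Nat.card_eq_fintype_card (α := (ZMod p)ˣ), ZMod.card_units]
  ring

lemma mem_center (A : SL(2, ZMod p)) (hA : A ∈ Subgroup.center SL(2, ZMod p)) :
    ∃ r : ZMod p, r ^ 2 = 1 ∧ A.1 = Matrix.scalar (Fin 2) r := by
  rw [Matrix.SpecialLinearGroup.mem_center_iff] at hA
  obtain ⟨r, hr, h⟩ := hA
  rw [Fintype.card_fin] at hr
  exact ⟨r, hr, h.symm⟩

lemma neg_one_mem_center : (-1 : SL(2, ZMod p)) ∈ Subgroup.center SL(2, ZMod p) := by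
  rw [Subgroup.mem_center_iff]
  intro g
  rw [mul_neg, neg_mul, one_mul, mul_one]

lemma center_eq (A : SL(2, ZMod p)) :
    A ∈ Subgroup.center SL(2, ZMod p) ↔ A = 1 ∨ A = -1 := by
  constructor
  · intro hA
    obtain ⟨r, hr, h⟩ := mem_center A hA
    have h1 : (r - 1) * (r + 1) = 0 := by linear_combination hr
    rcases mul_eq_zero.mp h1 with h2 | h2
    · left
      have h3 : r = 1 := by linear_combination h2
      apply ext4 <;> rw [h, h3] <;> simp
    · right
      have h3 : r = -1 := by linear_combination h2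
      apply ext4 <;> rw [h, h3] <;> simp
  · rintro (h | h)
    · rw [h]; exact Subgroup.one_mem _
    · rw [h]; exact neg_one_mem_center

lemma card_center (hp : p ≠ 2) : Nat.card (Subgroup.center SL(2, ZMod p)) = 2 := by
  have hne : (1 : SL(2, ZMod p)) ≠ -1 := by
    intro h
    have h0 := congrArg (fun g : SL(2, ZMod p) => g.1 0 0) h
    simp at h0
    have : (2 : ZMod p) = 0 := by linear_combination h0
    have h2 : ((2 : ℕ) : ZMod p) = 0 := by exact_mod_cast this
    rw [ZMod.natCast_eq_zero_iff] at h2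
    have h3 := (Nat.prime_dvd_prime_iff_eq (Fact.out : p.Prime) Nat.prime_two).mp h2
    exact hp h3
  have hset : ((Subgroup.center SL(2, ZMod p) : Subgroup SL(2, ZMod p)) : Set SL(2, ZMod p)) =
      {1, -1} := by
    ext A
    rw [SetLike.mem_coe, center_eq]
    simp
  have : Nat.card (Subgroup.center SL(2, ZMod p)) =
      Set.ncard ((Subgroup.center SL(2, ZMod p) : Subgroup SL(2, ZMod p)) : Set SL(2, ZMod p)) := rfl
  rw [this, hset, Set.ncard_pair hne]

/-- `PSL(2,p)`. -/
abbrev PS (p : ℕ) := Matrix.ProjectiveSpecialLinearGroup (Fin 2) (ZMod p)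

lemma card_PSL (hp : p ≠ 2) : 2 * Nat.card (PS p) = (p - 1) * p ^ 2 + (p - 1) * p := by
  have h := Subgroup.card_eq_card_quotient_mul_card_subgroup (Subgroup.center SL(2, ZMod p))
  rw [card_center hp, card_SL] at h
  rw [h, mul_comm]

/-- The quotient map. -/
def pr : SL(2, ZMod p) →* PS p := QuotientGroup.mk' _

lemma pr_eq_one {A : SL(2, ZMod p)} : pr A = 1 ↔ A = 1 ∨ A = -1 := by
  rw [← center_eq]
  exact QuotientGroup.eq_one_iff A

lemma pr_eq {A B : SL(2, ZMod p)} (h : pr A = pr B) : A = B ∨ A = -B := by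
  have h1 : pr (A * B⁻¹) = 1 := by rw [map_mul, map_inv, h, mul_inv_cancel]
  rcases pr_eq_one.mp h1 with h2 | h2
  · left; rwa [mul_inv_eq_one] at h2
  · right
    calc A = (A * B⁻¹) * B := by group
      _ = -B := by rw [h2, neg_mul, one_mul]

/-- If `A` has an eigenvalue `l`, then the order of `l ^ 2` divides the order of the image of `A`. -/
lemma dvd_order (A : SL(2, ZMod p)) (l : (ZMod p)ˣ) (v : Fin 2 → ZMod p) (hv : v ≠ 0)
    (h : A.1 *ᵥ v = (l : ZMod p) • v) : orderOf (l ^ 2) ∣ orderOf (pr A) := by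
  set k := orderOf (pr A) with hk
  have h1 : pr (A ^ k) = 1 := by rw [map_pow, hk, pow_orderOf_eq_one]
  have h2 : ∀ n : ℕ, (A ^ n).1 *ᵥ v = ((l : ZMod p) ^ n) • v := by
    intro n
    induction n with
    | zero => simp
    | succ n ih =>
      rw [pow_succ, Matrix.SpecialLinearGroup.coe_mul, ← Matrix.mulVec_mulVec, h,
        Matrix.mulVec_smul, ih, smul_smul, pow_succ, mul_comm]
  have h3 := h2 k
  obtain ⟨i, hi⟩ : ∃ i, v i ≠ 0 := by
    by_contra hcon
    push Not at hcon
    exact hv (funext hcon)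
  apply orderOf_dvd_of_pow_eq_one
  apply Units.ext
  rw [Units.val_pow_eq_pow_val, Units.val_pow_eq_pow_val, Units.val_one]
  rcases pr_eq_one.mp h1 with h4 | h4
  · rw [h4] at h3
    have h5 := congrFun h3 i
    simp only [Matrix.SpecialLinearGroup.coe_one, Matrix.one_mulVec, Pi.smul_apply,
      smul_eq_mul] at h5
    have h6 : (l : ZMod p) ^ k = 1 := by
      apply mul_right_cancel₀ hi
      rw [one_mul]; exact h5.symm
    rw [← pow_mul, mul_comm, pow_mul, h6, one_pow]
  · rw [h4] at h3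
    have h5 := congrFun h3 i
    simp only [Matrix.SpecialLinearGroup.coe_neg, Matrix.SpecialLinearGroup.coe_one,
      Matrix.neg_mulVec, Matrix.one_mulVec, Pi.smul_apply, Pi.neg_apply,
      smul_eq_mul] at h5
    have h6 : (l : ZMod p) ^ k = -1 := by
      apply mul_right_cancel₀ hi
      rw [neg_mul, one_mul]; exact h5.symm
    rw [← pow_mul, mul_comm, pow_mul, h6]
    ring

end Pool.Agent.W452.Psi
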