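import Pool.Agent.W452.Psi.Low

/-!
# The soluble group: a Frobenius group times an elementary abelian 2-group
-/

set_option autoImplicit false

namespace Pool.Agent.W452.Psi

section Gen

variable {R : Type} [CommRing R]

/-- Units act on the additive group by multiplication. -/
def act (R : Type) [CommRing R] : Rˣ →* MulAut (Multiplicative R) where
  toFun c :=
    { toFun := fun x => Multiplicative.ofAdd ((c : R) * x.toAdd)
      invFun := fun x => Multiplicative.ofAdd (((c⁻¹ : Rˣ) : R) * x.toAdd)
      left_inv := fun x => by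
        simp
      right_inv := fun x => by
        simp
      map_mul' := fun x y => by
        simp [mul_add] }
  map_one' := by
    ext x
    simp
  map_mul' c d := by
    ext x
    simp [mul_assoc]

/-- The affine group over `R` with multipliers in `C`. -/
abbrev Aff (C : Subgroup Rˣ) := Multiplicative R ⋊[(act R).comp C.subtype] C

lemma aff_pow (C : Subgroup Rˣ) (h : Aff C) (n : ℕ) :
    (h ^ n).left = Multiplicative.ofAdd ((∑ i ∈ Finset.range n, ((h.right : Rˣ) : R) ^ i) *
      h.left.toAdd) ∧ (h ^ n).right = h.right ^ n := by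
  induction n with
  | zero => simp
  | succ n ih =>
    obtain ⟨h1, h2⟩ := ih
    constructor
    · rw [pow_succ, SemidirectProduct.mul_left, h1, h2, Finset.sum_range_succ]
      apply Multiplicative.toAdd.injective
      simp only [act]
      simp
      ring
    · rw [pow_succ, SemidirectProduct.mul_right, h2, pow_succ]

lemma aff_order (C : Subgroup Rˣ) [Finite C] (hC : ∀ c ∈ C, c ≠ 1 → IsUnit ((c : R) - 1)) (h : Aff C)
    (hc : h.right ≠ 1) : h ^ (orderOf h.right) = 1 := by
  obtain ⟨h1, h2⟩ := aff_pow C h (orderOf h.right)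
  apply SemidirectProduct.ext
  · rw [h1, SemidirectProduct.one_left]
    have h3 : ((h.right : Rˣ) : R) ^ (orderOf h.right) = 1 := by
      rw [← Units.val_pow_eq_pow_val, ← Subgroup.coe_pow, pow_orderOf_eq_one]
      simp
    have h4 : (∑ i ∈ Finset.range (orderOf h.right), ((h.right : Rˣ) : R) ^ i) *
        (((h.right : Rˣ) : R) - 1) = 0 := by
      rw [geom_sum_mul, h3, sub_self]
    have h5 := hC _ h.right.2 (by
      intro h6
      exact hc (Subtype.ext h6))
    rw [h5.mul_left_eq_zero] at h4
    rw [h4, zero_mul]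
    rfl
  · rw [h2, pow_orderOf_eq_one]
    rfl

lemma aff_order_one (C : Subgroup Rˣ) (m : ℕ) (hm : (m : R) = 0) (h : Aff C)
    (hc : h.right = 1) : h ^ m = 1 := by
  obtain ⟨h1, h2⟩ := aff_pow C h m
  apply SemidirectProduct.ext
  · rw [h1, hc]
    simp [hm]
  · rw [h2, hc, one_pow]
    rfl

instance aff_solv (C : Subgroup Rˣ) : Group.IsSolvable (Aff C) := by
  apply Group.isSolvable_of_ker_le_range (SemidirectProduct.inl : Multiplicative R →* Aff C)
    (SemidirectProduct.rightHom : Aff C →* C)
  rw [SemidirectProduct.range_inl_eq_ker_rightHom]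

/-- The elementary abelian factor. -/
abbrev El := Multiplicative (Fin 3 → ZMod 2)

lemma el_sq (e : El) : e ^ 2 = 1 := by
  apply Multiplicative.toAdd.injective
  rw [toAdd_pow, toAdd_one]
  ext i
  have : ∀ x : ZMod 2, 2 • x = 0 := by decide
  exact this _

/-- The bounding function. -/
def bd (m d : ℕ) : ℕ := if d = 1 then 2 * m else Nat.lcm d 2

lemma order_le (C : Subgroup Rˣ) [Finite C] (hC : ∀ c ∈ C, c ≠ 1 → IsUnit ((c : R) - 1))
    (m : ℕ) (hm : (m : R) = 0) (hm0 : 0 < m) (g : Aff C × El) :
    orderOf g ≤ bd m (orderOf g.1.right) := by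
  by_cases hc : g.1.right = 1
  · rw [bd, if_pos (by rw [hc, orderOf_one])]
    apply Nat.le_of_dvd (by omega)
    apply orderOf_dvd_of_pow_eq_one
    apply Prod.ext
    · rw [Prod.pow_fst, mul_comm, pow_mul, aff_order_one C m hm _ hc, one_pow]
      rfl
    · rw [Prod.pow_snd, pow_mul, el_sq, one_pow]
      rfl
  · rw [bd, if_neg (by rw [orderOf_eq_one_iff]; exact hc)]
    apply Nat.le_of_dvd (Nat.lcm_pos (orderOf_pos _) (by norm_num))
    apply orderOf_dvd_of_pow_eq_one
    apply Prod.ext
    · obtain ⟨k, hk⟩ := Nat.dvd_lcm_left (orderOf g.1.right) 2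
      rw [Prod.pow_fst, hk, pow_mul, aff_order C hC _ hc, one_pow]
      rfl
    · obtain ⟨k, hk⟩ := Nat.dvd_lcm_right (orderOf g.1.right) 2
      rw [Prod.pow_snd, hk, pow_mul, el_sq, one_pow]
      rfl

lemma psi_sol [Finite R] (C : Subgroup Rˣ) [Fintype C] [IsCyclic C]
    (hC : ∀ c ∈ C, c ≠ 1 → IsUnit ((c : R) - 1))
    (m : ℕ) (hm : (m : R) = 0) (hm0 : 0 < m) :
    psi (Aff C × El) ≤ Nat.card R * 8 *
      (∑ d ∈ (Fintype.card C).divisors, d.totient * bd m d) := by
  classical
  have : Fintype R := Fintype.ofFinite _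
  have e : Aff C × El ≃ (Multiplicative R × C) × El :=
    Equiv.prodCongr SemidirectProduct.equivProd (Equiv.refl _)
  have : Fintype (Aff C) := Fintype.ofEquiv _ (SemidirectProduct.equivProd (N := Multiplicative R) (G := C)).symm
  rw [psi_eq]
  refine le_trans (Finset.sum_le_sum (fun g _ => order_le C hC m hm hm0 g)) ?_
  rw [Fintype.sum_prod_type]
  simp only [Finset.sum_const, smul_eq_mul, Finset.card_univ]
  rw [← Finset.mul_sum]
  have h8 : Fintype.card El = 8 := by
    rw [Fintype.card_multiplicative, Fintype.card_pi]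
    simp
  rw [h8]
  have h1 : ∑ g : Aff C, bd m (orderOf g.right) =
      ∑ g : Multiplicative R × C, bd m (orderOf g.2) := by
    apply Fintype.sum_equiv SemidirectProduct.equivProd
    intro g
    rfl
  rw [h1, Fintype.sum_prod_type]
  simp only [Finset.sum_const, smul_eq_mul, Finset.card_univ]
  rw [sum_cyclic (C := C) (bd m), Fintype.card_multiplicative, Nat.card_eq_fintype_card,
    ← mul_assoc, mul_comm 8]

end Gen

end Pool.Agent.W452.Psi
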